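import Mathlib

/-!
# Ply/Ev.lean (helper41): abstract event system of PLAYERS, histories, levels (sections 3 and 5 of the players text)

Players are natural numbers (gaps), accesses are the times `0 .. m-1`, states have times `0 .. m`
(state `t` = before access `t`).

* `om t s`   height of the player `s` at state time `t` (in the tree of the execution `E`);
* `res t s`  `s` is RESET at access `t` (`s ∈ sigma_t`: `E`-touched, or (K4), (K5));
* `tch t s`  `s` is not `E`-touched at `t` and its node is touched (on the search path) at `t`;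
* `low t s`  `s` is the LOW partner of a match at `t`; `hi t s` is then its HIGH partner;
* `sg t s`   sign of `s` at state time `t` (so `sg (t+1) a` is the sign after the match of `a` at `t`).
-/

namespace Ply

/-- abstract event system of players -/
structure Ev where
  S : Finset ℕ
  m : ℕ
  H : ℕ
  om : ℕ → ℕ → ℕ
  res : ℕ → ℕ → Prop
  tch : ℕ → ℕ → Prop
  low : ℕ → ℕ → Prop
  hi : ℕ → ℕ → ℕ
  sg : ℕ → ℕ → ℕ
  om_le : ∀ t s, t ≤ m → s ∈ S → om t s ≤ H
  om_eq : ∀ t s, t < m → s ∈ S → ¬ res t s → om (t + 1) s = om t s
  low_S : ∀ t s, t < m → low t s → s ∈ S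
  hi_S : ∀ t s, t < m → low t s → hi t s ∈ S
  low_om : ∀ t s, t < m → low t s → om t s < om t (hi t s)
  low_tch : ∀ t s, t < m → low t s → tch t s
  hi_tch : ∀ t s, t < m → low t s → tch t (hi t s)
  low_res : ∀ t s, t < m → low t s → ¬ res t s
  hi_res : ∀ t s, t < m → low t s → ¬ res t (hi t s)
  hi_low : ∀ t s, t < m → low t s → ¬ low t (hi t s)
  hi_inj : ∀ t s s', t < m → low t s → low t s' → hi t s = hi t s' → s = s'
  sg_le : ∀ t s, sg t s ≤ 1

namespace Ev

variable (E : Ev)

open Classical

/-- birth time of the current LIFE of `s` at state time `t`: one more than the last reset before `t` -/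
noncomputable def bth : ℕ → ℕ → ℕ
  | 0, _ => 0
  | t + 1, s => if E.res t s then t + 1 else bth t s

/-- start of the current EPOCH of `s` at state time `t`: one more than the last time `< t` at which
`s` was reset or LOW -/
noncomputable def org : ℕ → ℕ → ℕ
  | 0, _ => 0
  | t + 1, s => if E.res t s ∨ E.low t s then t + 1 else org t s

/-- the current epoch of `s` at state time `t` was started by a match in which `s` was LOW
(at the time `org t s - 1`) -/
def isL (t s : ℕ) : Prop := 0 < E.org t s ∧ E.low (E.org t s - 1) s

/-- LABEL of `s` at `t`: `(q, birth of the life of q, sign)` of the last match in which `s` was LOW,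
or `(s, org, 2)` if the epoch was started by a reset (or by time 0) -/
noncomputable def lab (t s : ℕ) : ℕ × ℕ × ℕ :=
  if E.isL t s then
    (E.hi (E.org t s - 1) s, E.bth (E.org t s - 1) (E.hi (E.org t s - 1) s), E.sg (E.org t s) s)
  else (s, E.org t s, 2)

/-- touch times of `s` in the current epoch, before `t` -/
noncomputable def tim (t s : ℕ) : Finset ℕ := (Finset.Ico (E.org t s) t).filter (fun u => E.tch u s)

/-- INDEX of `s` at `t` -/
noncomputable def idx (t s : ℕ) : ℕ := (E.tim t s).card

/-- `a ~ b` at `t`: same history (label and touch times) -/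
def sim (t a b : ℕ) : Prop := E.lab t a = E.lab t b ∧ E.tim t a = E.tim t b

/-- CEILING of `s` at `t` -/
noncomputable def ceil (t s : ℕ) : ℕ :=
  if E.isL t s then E.om (E.org t s - 1) (E.hi (E.org t s - 1) s) else E.H + 1

/-- LEVEL `kap = floor (log2 (ceiling - height))` of `s` at `t` -/
noncomputable def kap (t s : ℕ) : ℕ := Nat.log 2 (E.ceil t s - E.om t s)

/-- `kappa`: level of the HIGH partner just before the match in which `s` became LOW -/
noncomputable def kpa (t s : ℕ) : ℕ :=
  if E.isL t s then E.kap (E.org t s - 1) (E.hi (E.org t s - 1) s) else 0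

/-- `a ~~ b` at `t` -/
def simk (t a b : ℕ) : Prop := E.sim t a b ∧ E.kpa t a = E.kpa t b

/-- number of pairs (time, player) with a property -/
noncomputable def cnt (p : ℕ → ℕ → Prop) : ℕ :=
  ((Finset.range E.m ×ˢ E.S).filter (fun x => p x.1 x.2)).card

/-- `s` is LOW at `t` and its level changes -/
def chg (t s : ℕ) : Prop := E.low t s ∧ E.kap (t + 1) s ≠ E.kap t s

end Ev

end Ply
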