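import Pool.Agent.Ply.EvLab

/-! Ply/EvCnt.lean (helper41): the count (section 5 of the players text) -/

namespace Ply
namespace Ev

open Classical

variable (E : Ev)

theorem cnt_mono {p q : ℕ → ℕ → Prop} (h : ∀ t s, t < E.m → s ∈ E.S → p t s → q t s) : E.cnt p ≤ E.cnt q := by
  apply Finset.card_le_card
  intro x hx
  simp only [Finset.mem_filter, Finset.mem_product, Finset.mem_range] at hx ⊢
  exact ⟨hx.1, h _ _ hx.1.1 hx.1.2 hx.2⟩

theorem cnt_or (p q : ℕ → ℕ → Prop) : E.cnt (fun t s => p t s ∨ q t s) ≤ E.cnt p + E.cnt q := by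
  unfold cnt
  refine le_trans (Finset.card_le_card ?_) (Finset.card_union_le _ _)
  intro x hx
  simp only [Finset.mem_filter, Finset.mem_union] at hx ⊢
  tauto

theorem cnt_eq (p : ℕ → ℕ → Prop) :
    E.cnt p = ∑ s ∈ E.S, ((Finset.range E.m).filter (fun t => p t s)).card := by
  unfold cnt
  rw [Finset.card_filter, Finset.sum_product_right]
  apply Finset.sum_congr rfl
  intro s _
  rw [Finset.card_filter]

/-- one more time step -/
theorem card_range_succ (p : ℕ → Prop) [DecidablePred p] (t : ℕ) :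
    ((Finset.range (t + 1)).filter p).card = ((Finset.range t).filter p).card + if p t then 1 else 0 := by
  rw [Finset.range_add_one, Finset.filter_insert]
  split_ifs with h
  · rw [Finset.card_insert_of_notMem (by simp)]
  · rfl

/-- potential argument: `f` increases at `G`, does not decrease outside `B` -/
theorem cnt_pot (f : ℕ → ℕ → ℕ) (G B : ℕ → ℕ → Prop) (K : ℕ)
    (hf : ∀ t s, t ≤ E.m → s ∈ E.S → f t s ≤ K)
    (hG : ∀ t s, t < E.m → s ∈ E.S → G t s → f t s + 1 ≤ f (t + 1) s)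
    (hB : ∀ t s, t < E.m → s ∈ E.S → ¬ G t s → ¬ B t s → f t s ≤ f (t + 1) s) :
    E.cnt G ≤ K * (E.S.card + E.cnt B) := by
  rw [cnt_eq, cnt_eq, mul_add, Finset.mul_sum]
  have hc : K * E.S.card = ∑ _s ∈ E.S, K := by rw [Finset.sum_const, smul_eq_mul, mul_comm]
  rw [hc, ← Finset.sum_add_distrib]
  apply Finset.sum_le_sum
  intro s hs
  have key : ∀ t, t ≤ E.m → ((Finset.range t).filter (fun t => G t s)).card ≤
      f t s + K * ((Finset.range t).filter (fun t => B t s)).card := by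
    intro t
    induction t with
    | zero => intro _; simp
    | succ t ih =>
      intro ht
      have ih' := ih (by omega)
      rw [card_range_succ, card_range_succ, mul_add]
      have h1 := hf t s (by omega) hs
      by_cases hg : G t s
      · have := hG t s (by omega) hs hg
        rw [if_pos hg]
        omega
      · rw [if_neg hg]
        by_cases hb : B t s
        · rw [if_pos hb, mul_one]; omega
        · have := hB t s (by omega) hs hg hb
          omega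
  have h2 := key E.m le_rfl
  have h3 := hf E.m s le_rfl hs
  omega

/-- sum of the indices over the LOW events is at most the number of touches -/
theorem long_count (J : ℕ) : J * E.cnt (fun t a => E.low t a ∧ J ≤ E.idx t a) ≤ E.cnt E.tch := by
  rw [cnt_eq, cnt_eq, Finset.mul_sum]
  apply Finset.sum_le_sum
  intro s hs
  have key : ∀ t, t ≤ E.m → J * ((Finset.range t).filter (fun t => E.low t s ∧ J ≤ E.idx t s)).card + E.idx t s ≤
      ((Finset.range t).filter (fun t => E.tch t s)).card := by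
    intro t
    induction t with
    | zero => intro _; simp [idx, tim]
    | succ t ih =>
      intro ht
      have ih' := ih (by omega)
      rw [card_range_succ, card_range_succ, mul_add]
      by_cases hl : E.low t s
      · rw [E.idx_start (Or.inr hl)]
        split_ifs with h1 h2 <;> simp <;> omega
      · rw [if_neg (fun h => hl h.1)]
        by_cases hr : E.res t s
        · rw [E.idx_start (Or.inl hr)]
          omega
        · rw [E.idx_step hr hl]
          split_ifs <;> omega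
  have := key E.m le_rfl
  refine le_trans ?_ this
  refine le_trans ?_ (Nat.le_add_right _ _)
  apply le_of_eq
  congr 3
  
def cross (t a : ℕ) : Prop := E.low t a ∧ ¬ E.sim t a (E.hi t a)

def drop (t a : ℕ) : Prop := E.low t a ∧ E.sim t a (E.hi t a) ∧ E.kap (t + 1) a < E.kap t a

theorem drop_count : E.cnt E.drop ≤ E.M * (E.S.card + (E.cnt E.res + E.cnt E.cross)) := by
  have h := E.cnt_pot (fun t s => E.M - E.kap t s) E.drop (fun t s => E.res t s ∨ E.cross t s) E.M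
    (fun t s _ _ => Nat.sub_le _ _) ?_ ?_
  · refine le_trans h ?_
    have := E.cnt_or E.res E.cross
    gcongr
  · intro t s ht hs hd
    have h1 := E.kap_lt (t := t) (s := s) (by omega)
    have h2 := hd.2.2
    show E.M - E.kap t s + 1 ≤ E.M - E.kap (t + 1) s
    omega
  · intro t s ht hs hd hb
    show E.M - E.kap t s ≤ E.M - E.kap (t + 1) s
    have hr : ¬ E.res t s := fun h => hb (Or.inl h)
    have hx : ¬ E.cross t s := fun h => hb (Or.inr h)
    by_cases hl : E.low t s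
    · have hsim : E.sim t s (E.hi t s) := by
        by_contra hcon
        exact hx ⟨hl, hcon⟩
      have h1 := (E.link ht hl hsim).1
      omega
    · rw [E.kap_step ht hs hr hl]

theorem chg_count : E.cnt E.chg ≤ E.cnt E.drop + E.cnt E.cross := by
  refine le_trans (E.cnt_mono (q := fun t s => E.drop t s ∨ E.cross t s) ?_) (E.cnt_or _ _)
  intro t s ht hs h
  by_cases hsim : E.sim t s (E.hi t s)
  · left
    have h1 := (E.link ht h.1 hsim).1
    exact ⟨h.1, hsim, lt_of_le_of_ne h1 h.2⟩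
  · right; exact ⟨h.1, hsim⟩

/-- the last LOW event of the HIGH partner was cross or a drop, small index -/
def bad (J t a : ℕ) : Prop :=
  E.low t a ∧ E.sim t a (E.hi t a) ∧ E.idx t a < J ∧
    (E.cross (E.org t (E.hi t a) - 1) (E.hi t a) ∨ E.drop (E.org t (E.hi t a) - 1) (E.hi t a))

theorem tim_sub {t t' s : ℕ} (htt : t < t') (ho : E.org t s = E.org t' s) (h : E.tch t s) : E.idx t s < E.idx t' s := by
  unfold idx
  apply Finset.card_lt_card
  rw [Finset.ssubset_iff_of_subset]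
  · refine ⟨t, ?_, E.not_mem_tim t s⟩
    unfold tim
    simp only [Finset.mem_filter, Finset.mem_Ico]
    exact ⟨⟨by rw [← ho]; exact E.org_le t s, htt⟩, h⟩
  · intro x hx
    unfold tim at hx ⊢
    simp only [Finset.mem_filter, Finset.mem_Ico] at hx ⊢
    exact ⟨⟨by rw [← ho]; exact hx.1.1, by omega⟩, hx.2⟩

theorem bad_count (J : ℕ) : E.cnt (E.bad J) ≤ J * (E.cnt E.cross + E.cnt E.drop) := by
  have h1 : E.cnt (E.bad J) ≤
      (((Finset.range E.m ×ˢ E.S).filter (fun x => E.cross x.1 x.2 ∨ E.drop x.1 x.2)) ×ˢ Finset.range J).card := by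
    unfold cnt
    apply Finset.card_le_card_of_injOn
      (fun x => ((E.org x.1 (E.hi x.1 x.2) - 1, E.hi x.1 x.2), E.idx x.1 (E.hi x.1 x.2)))
    · intro x hx
      simp only [Finset.coe_filter, Finset.mem_product, Finset.mem_range, Set.mem_ofPred_eq] at hx
      simp only [Finset.coe_product, Finset.coe_filter, Finset.mem_product, Finset.mem_range, Finset.coe_range,
        Set.mem_prod, Set.mem_ofPred_eq, Set.mem_Iio]
      obtain ⟨⟨h1, h2⟩, h3, h4, h5, h6⟩ := hx
      have h7 := E.org_le x.1 (E.hi x.1 x.2)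
      refine ⟨⟨⟨by omega, E.hi_S _ _ h1 h3⟩, h6⟩, ?_⟩
      have : E.idx x.1 x.2 = E.idx x.1 (E.hi x.1 x.2) := by
        unfold idx; rw [h4.2]
      omega
    · intro x hx y hy hxy
      simp only [Finset.coe_filter, Finset.mem_product, Finset.mem_range, Set.mem_ofPred_eq] at hx hy
      simp only [Prod.mk.injEq] at hxy
      obtain ⟨⟨h1, h2⟩, h3, h4, h5, h6⟩ := hx
      obtain ⟨⟨g1, g2⟩, g3, g4, g5, g6⟩ := hy
      obtain ⟨⟨e1, e2⟩, e3⟩ := hxy
      have hne : x.2 ≠ E.hi x.1 x.2 := fun hcon => E.hi_low _ _ h1 h3 (by rw [← hcon]; exact h3)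
      have gne : y.2 ≠ E.hi y.1 y.2 := fun hcon => E.hi_low _ _ g1 g3 (by rw [← hcon]; exact g3)
      have hL := (E.isL_of_sim hne h4).2
      have gL := (E.isL_of_sim gne g4).2
      have hL1 := hL.1
      have gL1 := gL.1
      have ho : E.org x.1 (E.hi x.1 x.2) = E.org y.1 (E.hi x.1 x.2) := by
        rw [e2] at e1 hL1 ⊢
        omega
      have hx1 : x.1 = y.1 := by
        rcases lt_trichotomy x.1 y.1 with hlt | heq | hgt
        · have h8 := E.tim_sub hlt ho (E.hi_tch _ _ h1 h3)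
          rw [e2] at e3 h8
          omega
        · exact heq
        · have h8 := E.tim_sub hgt ho.symm (by rw [e2]; exact E.hi_tch _ _ g1 g3)
          rw [e2] at e3 h8
          omega
      have hx2 : x.2 = y.2 := by
        rw [← hx1] at e2 g3
        exact E.hi_inj _ _ _ h1 h3 g3 e2
      exact Prod.ext hx1 hx2
  rw [Finset.card_product, Finset.card_range, mul_comm] at h1
  refine le_trans h1 ?_
  gcongr
  have h2 := E.cnt_or E.cross E.drop
  refine le_trans (le_of_eq ?_) h2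
  unfold cnt
  congr

/-- regular matches -/
def reg (J t a : ℕ) : Prop :=
  E.low t a ∧ E.sim t a (E.hi t a) ∧ E.idx t a < J ∧ E.kpa t a = E.kpa t (E.hi t a) ∧
    ¬ (E.cross (E.org t (E.hi t a) - 1) (E.hi t a) ∨ E.drop (E.org t (E.hi t a) - 1) (E.hi t a))

theorem kap_const {u v s : ℕ} (huv : u ≤ v) (hv : v ≤ E.m) (hs : s ∈ E.S)
    (h : ∀ w, u ≤ w → w < v → ¬ E.res w s ∧ ¬ E.low w s) : E.kap v s = E.kap u s := by
  induction v, huv using Nat.le_induction with
  | base => rfl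
  | succ v hv' ih =>
    have h1 := h v hv' (Nat.lt_succ_self v)
    rw [E.kap_step (by omega) hs h1.1 h1.2]
    exact ih (by omega) (fun w h1 h2 => h w h1 (by omega))

theorem reg_incr {J t a : ℕ} (ht : t < E.m) (h : E.reg J t a) : E.kpa t a + 1 ≤ E.kpa (t + 1) a := by
  obtain ⟨hl, hsim, _, hk, hno⟩ := h
  set b := E.hi t a with hb
  have hab : a ≠ b := fun hcon => E.hi_low t a ht hl (by rw [← hb, ← hcon]; exact hl)
  have hbS : b ∈ E.S := E.hi_S t a ht hl
  have hL := (E.isL_of_sim hab hsim).2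
  have ho := E.org_le t b
  have hL1 := hL.1
  set l := E.org t b - 1 with hldef
  have hl1 : E.org t b = l + 1 := by omega
  have hlow : E.low l b := by rw [hldef]; exact hL.2
  have hsim2 : E.sim l b (E.hi l b) := by
    by_contra hcon
    exact hno (Or.inl ⟨hlow, hcon⟩)
  have hnd : ¬ E.kap (l + 1) b < E.kap l b := fun hcon => hno (Or.inr ⟨hlow, hsim2, hcon⟩)
  obtain ⟨l1, _, l3⟩ := E.link (t := l) (by omega) hlow hsim2
  have e1 : E.kap l (E.hi l b) < E.kap l b := by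
    rcases l3 with l3 | l3
    · exact absurd l3 hnd
    · exact l3
  have e2 : E.kap t b = E.kap (l + 1) b := by
    apply E.kap_const (by omega) (by omega) hbS
    intro w h1 h2
    exact E.not_ev_since t b w (by omega) h2
  have e3 : E.kpa (t + 1) a = E.kap t b := E.kpa_start hl
  have e4 : E.kpa t b = E.kap l (E.hi l b) := by
    unfold kpa
    rw [if_pos hL]
  omega

theorem reg_count (J : ℕ) : E.cnt (E.reg J) ≤
    E.M * (E.S.card + (E.cnt E.res + E.cnt (fun t a => E.low t a ∧ ¬ E.reg J t a))) := by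
  have h := E.cnt_pot E.kpa (E.reg J) (fun t s => E.res t s ∨ (E.low t s ∧ ¬ E.reg J t s)) E.M
    (fun t s ht _ => (E.kpa_lt ht).le) ?_ ?_
  · refine le_trans h ?_
    have := E.cnt_or E.res (fun t s => E.low t s ∧ ¬ E.reg J t s)
    gcongr
  · intro t s ht hs hd
    exact E.reg_incr ht hd
  · intro t s ht hs hd hb
    have hr : ¬ E.res t s := fun h => hb (Or.inl h)
    have hx : ¬ E.low t s := fun h => hb (Or.inr ⟨h, hd⟩)
    rw [E.kpa_step hr hx]

theorem nonreg_count (J : ℕ) : E.cnt (fun t a => E.low t a ∧ ¬ E.reg J t a) ≤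
    E.cnt E.cross + (E.cnt (E.bad J) + (E.cnt (fun t a => E.low t a ∧ E.sim t a (E.hi t a) ∧
      E.kpa t a ≠ E.kpa t (E.hi t a) ∧ E.idx t a < J) + E.cnt (fun t a => E.low t a ∧ J ≤ E.idx t a))) := by
  refine le_trans (E.cnt_mono (q := fun t a => E.cross t a ∨ (E.bad J t a ∨ ((E.low t a ∧ E.sim t a (E.hi t a) ∧
      E.kpa t a ≠ E.kpa t (E.hi t a) ∧ E.idx t a < J) ∨ (E.low t a ∧ J ≤ E.idx t a)))) ?_) ?_
  · intro t a ht ha h
    obtain ⟨h1, h2⟩ := h
    by_cases hsim : E.sim t a (E.hi t a)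
    · by_cases hi : E.idx t a < J
      · by_cases hk : E.kpa t a = E.kpa t (E.hi t a)
        · by_cases hc : (E.cross (E.org t (E.hi t a) - 1) (E.hi t a) ∨ E.drop (E.org t (E.hi t a) - 1) (E.hi t a))
          · exact Or.inr (Or.inl ⟨h1, hsim, hi, hc⟩)
          · exact absurd ⟨h1, hsim, hi, hk, hc⟩ h2
        · exact Or.inr (Or.inr (Or.inl ⟨h1, hsim, hk, hi⟩))
      · exact Or.inr (Or.inr (Or.inr ⟨h1, by omega⟩))
    · exact Or.inl ⟨h1, hsim⟩
  · refine le_trans (E.cnt_or _ _) (Nat.add_le_add_left ?_ _)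
    refine le_trans (E.cnt_or _ _) (Nat.add_le_add_left ?_ _)
    exact E.cnt_or _ _

theorem low_count (J : ℕ) : E.cnt E.low ≤ E.cnt (E.reg J) + E.cnt (fun t a => E.low t a ∧ ¬ E.reg J t a) := by
  refine le_trans (E.cnt_mono (q := fun t a => E.reg J t a ∨ (E.low t a ∧ ¬ E.reg J t a)) ?_) (E.cnt_or _ _)
  intro t a _ _ h
  by_cases hr : E.reg J t a
  · exact Or.inl hr
  · exact Or.inr ⟨h, hr⟩

theorem cross_count (J : ℕ) : E.cnt E.cross ≤
    E.cnt (fun t a => E.low t a ∧ ¬ E.sim t a (E.hi t a) ∧ (E.idx t a < J ∨ E.idx t (E.hi t a) < J)) +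
      E.cnt (fun t a => E.low t a ∧ J ≤ E.idx t a) := by
  refine le_trans (E.cnt_mono (q := fun t a => (E.low t a ∧ ¬ E.sim t a (E.hi t a) ∧
      (E.idx t a < J ∨ E.idx t (E.hi t a) < J)) ∨ (E.low t a ∧ J ≤ E.idx t a)) ?_) (E.cnt_or _ _)
  intro t a _ _ h
  by_cases hi : E.idx t a < J
  · exact Or.inl ⟨h.1, h.2, Or.inl hi⟩
  · exact Or.inr ⟨h.1, by omega⟩

/-- pure arithmetic: `N` matches, `X` cross, `D` drops, `T` touches, `A` lives, `B` bad, `G` kappa-defects, `L`, `L'` long -/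
theorem arith (M c P N X D T A B G L L' R NR Chg : ℕ) (hM : 1 ≤ M) (hc : 1 ≤ c)
    (hT : T ≤ c * (N + P)) (hA : A ≤ c * P)
    (hD : D ≤ M * (A + X)) (hChg : Chg ≤ D + X)
    (hB : B ≤ (8 * c * M) * (X + D))
    (hG : G ≤ c * (8 * c * M) * (P + Chg))
    (hL : (8 * c * M) * L ≤ T) (hL' : (640 * c ^ 3 * M ^ 3) * L' ≤ T)
    (hX : X ≤ c * (640 * c ^ 3 * M ^ 3) * P + L')
    (hNR : NR ≤ X + (B + (G + L)))
    (hR : R ≤ M * (A + NR)) (hN : N ≤ R + NR) :
    N ≤ 10 ^ 5 * c ^ 6 * M ^ 6 * P := by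
  have h1 : 8 * M * L ≤ N + P := by
    refine le_of_mul_le_mul_left (a := c) ?_ (by omega)
    calc c * (8 * M * L) = (8 * c * M) * L := by ring
      _ ≤ T := hL
      _ ≤ c * (N + P) := hT
  have h2 : 640 * c ^ 2 * M ^ 3 * L' ≤ N + P := by
    refine le_of_mul_le_mul_left (a := c) ?_ (by omega)
    calc c * (640 * c ^ 2 * M ^ 3 * L') = (640 * c ^ 3 * M ^ 3) * L' := by ring
      _ ≤ T := hL'
      _ ≤ c * (N + P) := hT
  have hMM : M + 1 ≤ 2 * M := by omega
  have hDX : D + X ≤ c * M * P + 2 * M * X := by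
    calc D + X ≤ M * (A + X) + X := by omega
      _ ≤ M * (c * P + X) + X := by gcongr
      _ = c * M * P + (M + 1) * X := by ring
      _ ≤ c * M * P + (2 * M) * X := by gcongr
  have hBB : B ≤ 8 * c ^ 2 * M ^ 2 * P + 16 * c * M ^ 2 * X := by
    calc B ≤ (8 * c * M) * (X + D) := hB
      _ = (8 * c * M) * (D + X) := by ring
      _ ≤ (8 * c * M) * (c * M * P + 2 * M * X) := by gcongr
      _ = 8 * c ^ 2 * M ^ 2 * P + 16 * c * M ^ 2 * X := by ring
  have hc1 : 1 ≤ c * M := Nat.one_le_iff_ne_zero.2 (by positivity)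
  have hGG : G ≤ 16 * c ^ 3 * M ^ 2 * P + 16 * c ^ 2 * M ^ 2 * X := by
    calc G ≤ c * (8 * c * M) * (P + Chg) := hG
      _ ≤ c * (8 * c * M) * (P + (c * M * P + 2 * M * X)) := by gcongr; omega
      _ = c * (8 * c * M) * (1 * P + (c * M * P + 2 * M * X)) := by ring
      _ ≤ c * (8 * c * M) * ((c * M) * P + (c * M * P + 2 * M * X)) := by gcongr
      _ = 16 * c ^ 3 * M ^ 2 * P + 16 * c ^ 2 * M ^ 2 * X := by ring
  have hNR2 : NR ≤ 33 * c ^ 2 * M ^ 2 * X + 24 * c ^ 3 * M ^ 2 * P + L := by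
    have e1 : 1 ≤ c ^ 2 * M ^ 2 := Nat.one_le_iff_ne_zero.2 (by positivity)
    have e2 : c ≤ c ^ 2 := by nlinarith
    have e3 : c ^ 2 ≤ c ^ 3 := Nat.pow_le_pow_right hc (by norm_num)
    have e4 : X ≤ c ^ 2 * M ^ 2 * X := by nlinarith
    have e5 : 16 * c * M ^ 2 * X ≤ 16 * c ^ 2 * M ^ 2 * X := by gcongr
    have e6 : 8 * c ^ 2 * M ^ 2 * P ≤ 8 * c ^ 3 * M ^ 2 * P := by gcongr
    calc NR ≤ X + (B + (G + L)) := hNR
      _ ≤ c ^ 2 * M ^ 2 * X + ((8 * c ^ 3 * M ^ 2 * P + 16 * c ^ 2 * M ^ 2 * X) +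
        ((16 * c ^ 3 * M ^ 2 * P + 16 * c ^ 2 * M ^ 2 * X) + L)) := by omega
      _ = 33 * c ^ 2 * M ^ 2 * X + 24 * c ^ 3 * M ^ 2 * P + L := by ring
  have hN2 : N ≤ c * M * P + 66 * c ^ 2 * M ^ 3 * X + 48 * c ^ 3 * M ^ 3 * P + 2 * M * L := by
    calc N ≤ R + NR := hN
      _ ≤ M * (A + NR) + NR := by omega
      _ ≤ M * (c * P + NR) + NR := by gcongr
      _ = c * M * P + (M + 1) * NR := by ring
      _ ≤ c * M * P + (2 * M) * (33 * c ^ 2 * M ^ 2 * X + 24 * c ^ 3 * M ^ 2 * P + L) := by gcongr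
      _ = c * M * P + 66 * c ^ 2 * M ^ 3 * X + 48 * c ^ 3 * M ^ 3 * P + 2 * M * L := by ring
  have hX2 : 66 * c ^ 2 * M ^ 3 * X ≤ 42240 * (c ^ 6 * M ^ 6 * P) + 66 * c ^ 2 * M ^ 3 * L' := by
    calc 66 * c ^ 2 * M ^ 3 * X ≤ 66 * c ^ 2 * M ^ 3 * (c * (640 * c ^ 3 * M ^ 3) * P + L') := by gcongr
      _ = 42240 * (c ^ 6 * M ^ 6 * P) + 66 * c ^ 2 * M ^ 3 * L' := by ring
  have q1 : c * M * P ≤ c ^ 6 * M ^ 6 * P := by
    have e1 : c ≤ c ^ 6 := Nat.le_self_pow (by norm_num) c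
    have e2 : M ≤ M ^ 6 := Nat.le_self_pow (by norm_num) M
    gcongr
  have q2 : c ^ 3 * M ^ 3 * P ≤ c ^ 6 * M ^ 6 * P := by
    have e1 : c ^ 3 ≤ c ^ 6 := Nat.pow_le_pow_right hc (by norm_num)
    have e2 : M ^ 3 ≤ M ^ 6 := Nat.pow_le_pow_right hM (by norm_num)
    gcongr
  have q3 : P ≤ c ^ 6 * M ^ 6 * P := by
    have : 1 ≤ c ^ 6 * M ^ 6 := Nat.one_le_iff_ne_zero.2 (by positivity)
    nlinarith
  have e7 : 8 * (66 * c ^ 2 * M ^ 3 * L') ≤ N + P := by
    refine le_trans ?_ h2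
    calc 8 * (66 * c ^ 2 * M ^ 3 * L') = 528 * (c ^ 2 * M ^ 3 * L') := by ring
      _ ≤ 640 * (c ^ 2 * M ^ 3 * L') := by omega
      _ = 640 * c ^ 2 * M ^ 3 * L' := by ring
  have e8 : 8 * (2 * M * L) = 2 * (8 * M * L) := by ring
  have e9 : 48 * c ^ 3 * M ^ 3 * P = 48 * (c ^ 3 * M ^ 3 * P) := by ring
  have e10 : 10 ^ 5 * c ^ 6 * M ^ 6 * P = 10 ^ 5 * (c ^ 6 * M ^ 6 * P) := by ring
  rw [e10]
  rw [e9] at hN2
  set Q := c ^ 6 * M ^ 6 * P
  omega

/-- THE COUNT -/
theorem count (P c : ℕ) (hc : 1 ≤ c)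
    (hT : E.cnt E.tch ≤ c * (E.cnt E.low + P))
    (hR : E.S.card + E.cnt E.res ≤ c * P)
    (hX : ∀ J, E.cnt (fun t a => E.low t a ∧ ¬ E.sim t a (E.hi t a) ∧ (E.idx t a < J ∨ E.idx t (E.hi t a) < J))
      ≤ c * J * P)
    (hK : ∀ J, E.cnt (fun t a => E.low t a ∧ E.sim t a (E.hi t a) ∧ E.kpa t a ≠ E.kpa t (E.hi t a) ∧ E.idx t a < J)
      ≤ c * J * (P + E.cnt E.chg)) :
    E.cnt E.low ≤ 10 ^ 5 * c ^ 6 * E.M ^ 6 * P := by
  refine arith E.M c P (E.cnt E.low) (E.cnt E.cross) (E.cnt E.drop) (E.cnt E.tch) (E.S.card + E.cnt E.res)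
    (E.cnt (E.bad (8 * c * E.M))) _ (E.cnt (fun t a => E.low t a ∧ (8 * c * E.M) ≤ E.idx t a))
    (E.cnt (fun t a => E.low t a ∧ (640 * c ^ 3 * E.M ^ 3) ≤ E.idx t a)) (E.cnt (E.reg (8 * c * E.M)))
    (E.cnt (fun t a => E.low t a ∧ ¬ E.reg (8 * c * E.M) t a)) (E.cnt E.chg) (by unfold M; omega) hc hT hR ?_ E.chg_count
    (E.bad_count _) (hK (8 * c * E.M)) (E.long_count _) (E.long_count _) ?_ (E.nonreg_count _) ?_ (E.low_count _)
  · have := E.drop_count
    rw [← add_assoc] at this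
    exact this
  · exact le_trans (E.cross_count _) (Nat.add_le_add_right (hX _) _)
  · have := E.reg_count (8 * c * E.M)
    rw [← add_assoc] at this
    exact this

end Ev
end Ply
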