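import Pool.Agent.Ply.EvTail

/-! Ply/EvCnt2.lean (helper76): the sharp count, `N ≤ C M (1 + log M)^2 P` -/

set_option autoImplicit false

namespace Ply
namespace Ev

open Classical

variable (E : Ev)

/-- a match with `a ~ b`, where the current epoch of the HIGH partner `b` does not start with a
cross match -/
def gd (t a : ℕ) : Prop :=
  E.low t a ∧ E.sim t a (E.hi t a) ∧ ¬ E.cross (E.org t (E.hi t a) - 1) (E.hi t a)

/-- a match with `a ~ b`, where the current epoch of the HIGH partner `b` starts with a cross match -/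
def yy (t a : ℕ) : Prop :=
  E.low t a ∧ E.sim t a (E.hi t a) ∧ E.cross (E.org t (E.hi t a) - 1) (E.hi t a)

/-- the drop of the level of `s` at the match `t` -/
noncomputable def dr (t s : ℕ) : ℕ := E.kap t s - E.kap (t + 1) s

/-- the distance of two levels -/
def dst (x y : ℕ) : ℕ := (x - y) + (y - x)

/-- the threshold function -/
def thr (θ x : ℕ) : ℕ := if θ ≤ x then 1 else 0

theorem sum_thr (M x y : ℕ) (hx : x < M) (hy : y < M) :
    (∑ θ ∈ Finset.range M, if thr θ x ≠ thr θ y then 1 else 0) = dst x y := by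
  have h1 : ∀ a b : ℕ, a ≤ b → b < M →
      ((Finset.range M).filter (fun θ => thr θ a ≠ thr θ b)) = Finset.Ioc a b := by
    intro a b hab hb
    ext θ
    simp only [Finset.mem_filter, Finset.mem_range, Finset.mem_Ioc]
    unfold thr
    constructor
    · rintro ⟨h1, h2⟩
      by_cases e1 : θ ≤ a
      · rw [if_pos e1, if_pos (by omega)] at h2; exact absurd rfl h2
      · by_cases e2 : θ ≤ b
        · omega
        · rw [if_neg e1, if_neg e2] at h2; exact absurd rfl h2
    · rintro ⟨h1, h2⟩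
      refine ⟨by omega, ?_⟩
      rw [if_neg (by omega), if_pos h2]
      omega
  rw [← Finset.card_filter]
  unfold dst
  rcases le_total x y with h | h
  · rw [h1 x y h hy, Nat.card_Ioc]; omega
  · have h2 : ((Finset.range M).filter (fun θ => thr θ x ≠ thr θ y)) =
        ((Finset.range M).filter (fun θ => thr θ y ≠ thr θ x)) := by
      apply Finset.filter_congr
      intro θ _
      exact ne_comm
    rw [h2, h1 y x h hx, Nat.card_Ioc]; omega

theorem wsum_dst (p : ℕ → ℕ → Prop) (x y : ℕ → ℕ → ℕ) (M : ℕ)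
    (h : ∀ t s, t < E.m → s ∈ E.S → p t s → x t s < M ∧ y t s < M) :
    E.wsum p (fun t s => dst (x t s) (y t s)) =
      ∑ θ ∈ Finset.range M, E.cnt (fun t s => p t s ∧ thr θ (x t s) ≠ thr θ (y t s)) := by
  have h1 : E.wsum p (fun t s => dst (x t s) (y t s)) =
      E.wsum p (fun t s => ∑ θ ∈ Finset.range M, if thr θ (x t s) ≠ thr θ (y t s) then 1 else 0) := by
    unfold wsum
    apply Finset.sum_congr rfl
    intro z hz
    simp only [Finset.mem_filter, Finset.mem_product, Finset.mem_range] at hz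
    obtain ⟨⟨h1, h2⟩, h3⟩ := hz
    exact (sum_thr M _ _ (h _ _ h1 h2 h3).1 (h _ _ h1 h2 h3).2).symm
  rw [h1]
  unfold wsum cnt
  rw [Finset.sum_comm]
  apply Finset.sum_congr rfl
  intro θ _
  rw [← Finset.card_filter, Finset.filter_filter]
  congr

/-- the Link Lemma for the sharp count -/
theorem gd_step {t a : ℕ} (ht : t < E.m) (h : E.gd t a) :
    E.kpa t a + 1 ≤ E.kpa (t + 1) a +
      (dst (E.kpa t a) (E.kpa t (E.hi t a)) + 2 * E.dr (E.org t (E.hi t a) - 1) (E.hi t a)) := by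
  obtain ⟨hl, hsim, hno⟩ := h
  set b := E.hi t a with hb
  have hab : a ≠ b := fun hcon => E.hi_low t a ht hl (by rw [← hb, ← hcon]; exact hl)
  have hbS : b ∈ E.S := E.hi_S t a ht hl
  have hL := (E.isL_of_sim hab hsim).2
  have ho := E.org_le t b
  have hL1 := hL.1
  set l := E.org t b - 1 with hldef
  have hl1 : E.org t b = l + 1 := by omega
  have hlow : E.low l b := by rw [hldef]; exact hL.2
  have hsim2 : E.sim l b (E.hi l b) := by
    by_contra hcon
    exact hno ⟨hlow, hcon⟩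
  obtain ⟨l1, l2, l3⟩ := E.link (t := l) (by omega) hlow hsim2
  have e2 : E.kap t b = E.kap (l + 1) b := by
    apply E.kap_const (by omega) (by omega) hbS
    intro w h1 h2
    exact E.not_ev_since t b w (by omega) h2
  have e3 : E.kpa (t + 1) a = E.kap t b := E.kpa_start hl
  have e4 : E.kpa t b = E.kap l (E.hi l b) := by
    unfold kpa
    rw [if_pos hL]
  unfold dst dr
  rcases l3 with l3 | l3 <;> omega

/-- a match with `a ~ b` is determined by the start of the epoch of `b`, `b` and the index -/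
theorem per_sum (J : ℕ) (p : ℕ → ℕ → Prop) (w : ℕ → ℕ → ℕ) :
    E.wsum (fun t a => E.low t a ∧ E.sim t a (E.hi t a) ∧ E.idx t a < J ∧
        p (E.org t (E.hi t a) - 1) (E.hi t a))
      (fun t a => w (E.org t (E.hi t a) - 1) (E.hi t a)) ≤ J * E.wsum p w := by
  obtain ⟨P0, hP0⟩ : ∃ P0 : ℕ → ℕ → Prop, P0 = fun t a => E.low t a ∧ E.sim t a (E.hi t a) ∧
    E.idx t a < J ∧ p (E.org t (E.hi t a) - 1) (E.hi t a) := ⟨_, rfl⟩
  rw [← hP0]
  unfold wsum
  set A := (Finset.range E.m ×ˢ E.S).filter (fun x : ℕ × ℕ => P0 x.1 x.2) with hA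
  set φ : ℕ × ℕ → (ℕ × ℕ) × ℕ :=
    fun x => ((E.org x.1 (E.hi x.1 x.2) - 1, E.hi x.1 x.2), E.idx x.1 (E.hi x.1 x.2)) with hφ
  have hmem : ∀ x ∈ A, φ x ∈ ((Finset.range E.m ×ˢ E.S).filter (fun x => p x.1 x.2)) ×ˢ
      Finset.range J := by
    intro x hx
    rw [hA] at hx
    simp only [Finset.mem_filter, Finset.mem_product, Finset.mem_range, hP0] at hx
    simp only [hφ, Finset.mem_filter, Finset.mem_product, Finset.mem_range]
    obtain ⟨⟨h1, h2⟩, h3, h4, h5, h6⟩ := hx
    have h7 := E.org_le x.1 (E.hi x.1 x.2)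
    refine ⟨⟨⟨by omega, E.hi_S _ _ h1 h3⟩, h6⟩, ?_⟩
    have : E.idx x.1 x.2 = E.idx x.1 (E.hi x.1 x.2) := by
      unfold idx; rw [h4.2]
    omega
  have hinj : Set.InjOn φ A := by
    intro x hx y hy hxy
    rw [hA] at hx hy
    simp only [Finset.coe_filter, Finset.mem_product, Finset.mem_range, Set.mem_ofPred_eq, hP0] at hx hy
    simp only [hφ, Prod.mk.injEq] at hxy
    obtain ⟨⟨h1, h2⟩, h3, h4, h5, h6⟩ := hx
    obtain ⟨⟨g1, g2⟩, g3, g4, g5, g6⟩ := hy
    obtain ⟨⟨e1, e2⟩, e3⟩ := hxy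
    have hne : x.2 ≠ E.hi x.1 x.2 := fun hcon => E.hi_low _ _ h1 h3 (by rw [← hcon]; exact h3)
    have gne : y.2 ≠ E.hi y.1 y.2 := fun hcon => E.hi_low _ _ g1 g3 (by rw [← hcon]; exact g3)
    have hL := (E.isL_of_sim hne h4).2
    have gL := (E.isL_of_sim gne g4).2
    have hL1 := hL.1
    have gL1 := gL.1
    have ho : E.org x.1 (E.hi x.1 x.2) = E.org y.1 (E.hi x.1 x.2) := by
      rw [e2] at e1 hL1 ⊢
      omega
    have hx1 : x.1 = y.1 := by
      rcases lt_trichotomy x.1 y.1 with hlt | heq | hgt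
      · have h8 := E.tim_sub hlt ho (E.hi_tch _ _ h1 h3)
        rw [e2] at e3 h8
        omega
      · exact heq
      · have h8 := E.tim_sub hgt ho.symm (by rw [e2]; exact E.hi_tch _ _ g1 g3)
        rw [e2] at e3 h8
        omega
    have hx2 : x.2 = y.2 := by
      rw [← hx1] at e2 g3
      exact E.hi_inj _ _ _ h1 h3 g3 e2
    exact Prod.ext hx1 hx2
  show ∑ x ∈ A, w (E.org x.1 (E.hi x.1 x.2) - 1) (E.hi x.1 x.2) ≤
    J * ∑ x ∈ (Finset.range E.m ×ˢ E.S).filter (fun x => p x.1 x.2), w x.1 x.2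
  calc ∑ x ∈ A, w (E.org x.1 (E.hi x.1 x.2) - 1) (E.hi x.1 x.2)
      = ∑ y ∈ A.image φ, w y.1.1 y.1.2 := by rw [Finset.sum_image hinj]
    _ ≤ ∑ y ∈ ((Finset.range E.m ×ˢ E.S).filter (fun x => p x.1 x.2)) ×ˢ Finset.range J,
        w y.1.1 y.1.2 := by
        apply Finset.sum_le_sum_of_subset
        intro y hy
        obtain ⟨x, hx, rfl⟩ := Finset.mem_image.1 hy
        exact hmem x hx
    _ = J * ∑ x ∈ (Finset.range E.m ×ˢ E.S).filter (fun x => p x.1 x.2), w x.1 x.2 := by
        rw [Finset.sum_product, Finset.mul_sum]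
        apply Finset.sum_congr rfl
        intro x _
        show ∑ _y ∈ Finset.range J, w x.1 x.2 = J * w x.1 x.2
        rw [Finset.sum_const, Finset.card_range, smul_eq_mul]

/-- the total drop -/
theorem dr_sum : E.wsum (fun t s => E.low t s ∧ E.sim t s (E.hi t s)) E.dr ≤
    E.M * (E.S.card + E.cnt E.res + E.cnt E.cross) := by
  have h := E.wsum_pot (fun t s => E.M - E.kap t s) (fun t s => E.low t s ∧ E.sim t s (E.hi t s))
    (fun t s => E.res t s ∨ E.cross t s) E.dr (fun _ _ => 0) E.M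
    (fun t s _ _ => Nat.sub_le _ _) ?_ ?_
  · rw [wsum_const, zero_mul, add_zero] at h
    refine le_trans h ?_
    have := E.cnt_or E.res E.cross
    calc E.M * (E.S.card + E.cnt (fun t s => E.res t s ∨ E.cross t s))
        ≤ E.M * (E.S.card + (E.cnt E.res + E.cnt E.cross)) := by gcongr
      _ = E.M * (E.S.card + E.cnt E.res + E.cnt E.cross) := by ring
  · intro t s ht hs hd
    have h1 := E.kap_lt (t := t) (s := s) (by omega)
    have h2 := (E.link ht hd.1 hd.2).1
    show E.M - E.kap t s + E.dr t s ≤ E.M - E.kap (t + 1) s + 0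
    unfold dr
    omega
  · intro t s ht hs hd hb
    show E.M - E.kap t s ≤ E.M - E.kap (t + 1) s
    have hr : ¬ E.res t s := fun h => hb (Or.inl h)
    have hx : ¬ E.cross t s := fun h => hb (Or.inr h)
    by_cases hl : E.low t s
    · exfalso
      apply hd
      refine ⟨hl, ?_⟩
      by_contra hcon
      exact hx ⟨hl, hcon⟩
    · rw [E.kap_step ht hs hr hl]

/-- the total variation of the levels at the matches -/
theorem var_sum : E.wsum E.low (fun t s => dst (E.kap (t + 1) s) (E.kap t s)) ≤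
    E.wsum (fun t s => E.low t s ∧ E.sim t s (E.hi t s)) E.dr + E.M * E.cnt E.cross := by
  rw [← wsum_const]
  refine le_trans ?_ (le_trans (E.wsum_or (fun t s => E.low t s ∧ E.sim t s (E.hi t s)) E.cross
    (fun t s => dst (E.kap (t + 1) s) (E.kap t s))) ?_)
  · apply E.wsum_mono
    intro t s ht hs h
    refine ⟨?_, le_rfl⟩
    by_cases hsim : E.sim t s (E.hi t s)
    · exact Or.inl ⟨h, hsim⟩
    · exact Or.inr ⟨h, hsim⟩
  · apply add_le_add
    · apply E.wsum_mono
      intro t s ht hs h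
      refine ⟨h, ?_⟩
      have := (E.link ht h.1 h.2).1
      unfold dst dr
      omega
    · apply E.wsum_mono
      intro t s ht hs h
      refine ⟨h, ?_⟩
      have h1 := E.kap_lt (t := t) (s := s) (by omega)
      have h2 := E.kap_lt (t := t + 1) (s := s) (by omega)
      unfold dst
      omega

theorem gd_wsum (J : ℕ) : E.wsum E.gd (fun t a => dst (E.kpa t a) (E.kpa t (E.hi t a)) +
      2 * E.dr (E.org t (E.hi t a) - 1) (E.hi t a)) ≤
    E.wsum (fun t a => E.low t a ∧ E.sim t a (E.hi t a) ∧ E.idx t a < J)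
      (fun t a => dst (E.kpa t a) (E.kpa t (E.hi t a))) +
      2 * (J * E.wsum (fun t s => E.low t s ∧ E.sim t s (E.hi t s)) E.dr) +
      3 * E.M * E.NN J := by
  set w : ℕ → ℕ → ℕ := fun t a => dst (E.kpa t a) (E.kpa t (E.hi t a)) +
      2 * E.dr (E.org t (E.hi t a) - 1) (E.hi t a) with hw
  have h1 : E.wsum E.gd w ≤ E.wsum (fun t a => E.gd t a ∧ E.idx t a < J) w +
      E.wsum (fun t a => E.low t a ∧ J ≤ E.idx t a) (fun _ _ => 3 * E.M) := by
    have h2 : E.wsum (fun t a => E.low t a ∧ E.sim t a (E.hi t a) ∧ ¬ (E.idx t a < J)) w ≤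
        E.wsum (fun t a => E.low t a ∧ J ≤ E.idx t a) (fun _ _ => 3 * E.M) := by
      apply E.wsum_mono
      intro t s ht hs h
      refine ⟨⟨h.1, by omega⟩, ?_⟩
      have a1 := E.kpa_lt (t := t) (s := s) (by omega)
      have a2 := E.kpa_lt (t := t) (s := E.hi t s) (by omega)
      have a3 := E.org_le t (E.hi t s)
      have a4 := E.kap_lt (t := E.org t (E.hi t s) - 1) (s := E.hi t s) (by omega)
      rw [hw]
      show dst _ _ + 2 * E.dr _ _ ≤ 3 * E.M
      unfold dst dr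
      omega
    refine le_trans ?_ (Nat.add_le_add_left h2 _)
    refine le_trans ?_ (E.wsum_or _ _ _)
    apply E.wsum_mono
    intro t s ht hs h
    refine ⟨?_, le_rfl⟩
    by_cases hi : E.idx t s < J
    · exact Or.inl ⟨h, hi⟩
    · exact Or.inr ⟨h.1, h.2.1, hi⟩
  have h3 : E.wsum (fun t a => E.gd t a ∧ E.idx t a < J) w ≤
      E.wsum (fun t a => E.low t a ∧ E.sim t a (E.hi t a) ∧ E.idx t a < J)
        (fun t a => dst (E.kpa t a) (E.kpa t (E.hi t a))) +
      2 * (J * E.wsum (fun t s => E.low t s ∧ E.sim t s (E.hi t s)) E.dr) := by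
    rw [hw, wsum_add, wsum_mul]
    apply add_le_add
    · apply E.wsum_mono
      intro t s _ _ h
      exact ⟨⟨h.1.1, h.1.2.1, h.2⟩, le_rfl⟩
    · apply Nat.mul_le_mul_left
      refine le_trans ?_ (E.per_sum J (fun t s => E.low t s ∧ E.sim t s (E.hi t s)) E.dr)
      apply E.wsum_mono
      intro t s ht _ h
      refine ⟨⟨h.1.1, h.1.2.1, h.2, ?_⟩, le_rfl⟩
      have hab : s ≠ E.hi t s := fun hcon => E.hi_low t s ht h.1.1 (by rw [← hcon]; exact h.1.1)
      have hL := (E.isL_of_sim hab h.1.2.1).2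
      refine ⟨hL.2, ?_⟩
      by_contra hcon
      exact h.1.2.2 ⟨hL.2, hcon⟩
  rw [wsum_const] at h1
  have h4 : E.cnt (fun t a => E.low t a ∧ J ≤ E.idx t a) = E.NN J := rfl
  rw [h4] at h1
  omega

/-- pure arithmetic -/
theorem arith2 (M c P N X Y A D K L G k J : ℕ) (hM : 1 ≤ M) (hc : 1 ≤ c) (hJ : 1 ≤ J)
    (hA : A ≤ c * P)
    (hT : 2 ^ k * L ≤ (2 * N + c * P) + 2 ^ k * (c * J * P))
    (hX : X ≤ c * J * P + L) (hY : Y ≤ J * X + L) (hD : D ≤ M * (A + X))
    (hK : K ≤ c * J * (M * P + (D + M * X)))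
    (hG : G ≤ M * (A + (X + Y)) + (K + 2 * (J * D)) + 3 * M * L)
    (hN : N ≤ G + (X + Y)) (hk : 52 * c * M * J ≤ 2 ^ k) :
    N ≤ 78 * (c ^ 2 * M * J ^ 2 * P) := by
  set Q := c ^ 2 * M * J ^ 2 * P with hQ
  have hcM : 1 ≤ c * M := Nat.one_le_iff_ne_zero.2 (by positivity)
  have hD2 : D ≤ c * M * P + M * X := by
    calc D ≤ M * (A + X) := hD
      _ ≤ M * (c * P + X) := by gcongr
      _ = c * M * P + M * X := by ring
  have e0 : P ≤ c * P := Nat.le_mul_of_pos_left P (by omega)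
  have hK2 : K ≤ 2 * (c ^ 2 * M * J * P) + 2 * (c * M * J * X) := by
    calc K ≤ c * J * (M * P + (D + M * X)) := hK
      _ ≤ c * J * (M * (c * P) + ((c * M * P + M * X) + M * X)) := by gcongr
      _ = 2 * (c ^ 2 * M * J * P) + 2 * (c * M * J * X) := by ring
  have hJD : J * D ≤ c ^ 2 * M * J * P + c * M * J * X := by
    have e1 : c ≤ c ^ 2 := Nat.le_self_pow (by norm_num) c
    calc J * D ≤ J * (c * M * P + M * X) := by gcongr
      _ = c * M * J * P + 1 * (M * J * X) := by ring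
      _ ≤ c ^ 2 * M * J * P + c * (M * J * X) := by gcongr
      _ = c ^ 2 * M * J * P + c * M * J * X := by ring
  have hXY : X + Y ≤ 2 * (J * X) + L := by
    have : X ≤ J * X := Nat.le_mul_of_pos_left X (by omega)
    omega
  have hMXY : M * (X + Y) ≤ 2 * (c * M * J * X) + c * M * J * L := by
    calc M * (X + Y) ≤ M * (2 * (J * X) + L) := by gcongr
      _ = 1 * (2 * (M * J * X)) + 1 * M * 1 * L := by ring
      _ ≤ c * (2 * (M * J * X)) + c * M * J * L := by gcongr
      _ = 2 * (c * M * J * X) + c * M * J * L := by ring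
  have hXY2 : X + Y ≤ 2 * (c * M * J * X) + c * M * J * L := by
    refine le_trans ?_ hMXY
    exact Nat.le_mul_of_pos_left _ (by omega)
  have hML : M * L ≤ c * M * J * L := by
    calc M * L = 1 * M * 1 * L := by ring
      _ ≤ c * M * J * L := by gcongr
  have hAM : M * A ≤ c ^ 2 * M * J * P := by
    have e1 : c ≤ c ^ 2 := Nat.le_self_pow (by norm_num) c
    calc M * A ≤ M * (c * P) := by gcongr
      _ = c * M * 1 * P := by ring
      _ ≤ c ^ 2 * M * J * P := by gcongr
  have hQ1 : c ^ 2 * M * J * P ≤ Q := by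
    have e1 : J ≤ J ^ 2 := Nat.le_self_pow (by norm_num) J
    rw [hQ]
    gcongr
  have hXQ : c * M * J * X ≤ Q + c * M * J * L := by
    calc c * M * J * X ≤ c * M * J * (c * J * P + L) := by gcongr
      _ = Q + c * M * J * L := by rw [hQ]; ring
  have hG2 : G ≤ M * A + M * (X + Y) + K + 2 * (J * D) + 3 * (M * L) := by
    calc G ≤ M * (A + (X + Y)) + (K + 2 * (J * D)) + 3 * M * L := hG
      _ = M * A + M * (X + Y) + K + 2 * (J * D) + 3 * (M * L) := by ring
  have hN2 : N ≤ 13 * Q + 13 * (c * M * J * L) := by omega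
  have hL2 : 2 ^ k * (c * M * J * L) ≤ 2 * (c * M * J * N) + Q + 2 ^ k * Q := by
    calc 2 ^ k * (c * M * J * L) = c * M * J * (2 ^ k * L) := by ring
      _ ≤ c * M * J * ((2 * N + c * P) + 2 ^ k * (c * J * P)) := by gcongr
      _ = 2 * (c * M * J * N) + c ^ 2 * M * J * P + 2 ^ k * Q := by rw [hQ]; ring
      _ ≤ 2 * (c * M * J * N) + Q + 2 ^ k * Q := by omega
  have hk2 : 52 * (c * M * J * N) ≤ 2 ^ k * N := by
    calc 52 * (c * M * J * N) = 52 * c * M * J * N := by ring
      _ ≤ 2 ^ k * N := by gcongr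
  have hp : 1 ≤ 2 ^ k := Nat.one_le_two_pow
  have hQp : Q ≤ 2 ^ k * Q := Nat.le_mul_of_pos_left Q (by omega)
  have h9 : 2 ^ k * N ≤ 13 * (2 ^ k * Q) + 13 * (2 ^ k * (c * M * J * L)) := by
    calc 2 ^ k * N ≤ 2 ^ k * (13 * Q + 13 * (c * M * J * L)) := by gcongr
      _ = 13 * (2 ^ k * Q) + 13 * (2 ^ k * (c * M * J * L)) := by ring
  have h10 : 2 ^ k * N ≤ 2 ^ k * (78 * Q) := by
    have : 2 ^ k * (78 * Q) = 78 * (2 ^ k * Q) := by ring
    rw [this]
    omega
  exact Nat.le_of_mul_le_mul_left h10 (by omega)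

/-- THE SHARP COUNT -/
theorem count2 : ∃ C : ℕ → ℕ, ∀ (E : Ev) (P c : ℕ), 1 ≤ c →
    (E.S.card + E.cnt E.res ≤ c * P) →
    (∀ J, E.cnt (fun t a => E.low t a ∧ ¬ E.sim t a (E.hi t a) ∧
      (E.idx t a < J ∨ E.idx t (E.hi t a) < J)) ≤ c * J * P) →
    (∀ (f : ℕ → ℕ) (J : ℕ), E.cnt (fun t a => E.low t a ∧ E.sim t a (E.hi t a) ∧
      f (E.kpa t a) ≠ f (E.kpa t (E.hi t a)) ∧ E.idx t a < J) ≤
      c * J * (P + E.cnt (fun t s => E.low t s ∧ f (E.kap (t + 1) s) ≠ f (E.kap t s)))) →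
    (∀ J, 1 ≤ J → E.TT J ≤ 2 * E.NN J + c * J * P) →
    E.cnt E.low ≤ C c * E.M * (Nat.log 2 E.M + 1) ^ 2 * P := by
  refine ⟨fun c => 78 * c ^ 2 * (2 * Nat.log 2 (52 * c) + 7) ^ 2, ?_⟩
  intro E P c hc hR hX hK hH
  have hM : 1 ≤ E.M := by unfold M; omega
  obtain ⟨r, ha⟩ : ∃ r, r = Nat.log 2 (52 * c * E.M) + 1 := ⟨_, rfl⟩
  have ha1 : 52 * c * E.M ≤ 2 ^ r := by
    rw [ha]; exact (Nat.lt_pow_succ_log_self (by norm_num) _).le
  have key : E.cnt E.low ≤ 78 * (c ^ 2 * E.M * (2 * r + 3) ^ 2 * P) := by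
    refine arith2 E.M c P (E.cnt E.low) (E.cnt E.cross) (E.cnt E.yy) (E.S.card + E.cnt E.res)
      (E.wsum (fun t s => E.low t s ∧ E.sim t s (E.hi t s)) E.dr)
      (E.wsum (fun t a => E.low t a ∧ E.sim t a (E.hi t a) ∧ E.idx t a < 2 * r + 3)
        (fun t a => dst (E.kpa t a) (E.kpa t (E.hi t a))))
      (E.NN (2 * r + 3)) (E.cnt E.gd) (2 * r + 2) (2 * r + 3) hM hc (by omega) hR ?_ ?_ ?_ ?_ ?_ ?_ ?_ ?_
    · -- tail
      have h1 := E.tail c P hH (2 * r + 2)
      have h2 := hH 1 le_rfl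
      have h3 := E.NN_le 1
      have h4 := E.NN_le_TT (2 * r + 3)
      calc 2 ^ (2 * r + 2) * E.NN (2 * r + 3) ≤ 2 ^ (2 * r + 2) * E.TT (2 * r + 2 + 1) := by gcongr
        _ ≤ E.TT 1 + 2 ^ (2 * r + 2) * (c * (2 * r + 2 + 1) * P) := h1
        _ ≤ (2 * E.cnt E.low + c * P) + 2 ^ (2 * r + 2) * (c * (2 * r + 3) * P) := by
            have : c * 1 * P = c * P := by ring
            have : 2 * r + 2 + 1 = 2 * r + 3 := rfl
            rw [this]
            omega
    · exact le_trans (E.cross_count _) (Nat.add_le_add_right (hX _) _)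
    · -- Y
      have h1 := E.per_sum (2 * r + 3) E.cross (fun _ _ => 1)
      rw [← cnt_eq_wsum, ← cnt_eq_wsum] at h1
      refine le_trans (E.cnt_mono (q := fun t s => (E.low t s ∧ E.sim t s (E.hi t s) ∧
        E.idx t s < 2 * r + 3 ∧ E.cross (E.org t (E.hi t s) - 1) (E.hi t s)) ∨
        (E.low t s ∧ 2 * r + 3 ≤ E.idx t s)) ?_) (le_trans (E.cnt_or _ _) (Nat.add_le_add_right h1 _))
      intro t s _ _ h
      by_cases hi : E.idx t s < 2 * r + 3
      · exact Or.inl ⟨h.1, h.2.1, hi, h.2.2⟩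
      · exact Or.inr ⟨h.1, by omega⟩
    · exact E.dr_sum
    · -- K
      rw [E.wsum_dst _ _ _ E.M]
      · calc ∑ θ ∈ Finset.range E.M, E.cnt (fun t s => (E.low t s ∧ E.sim t s (E.hi t s) ∧
              E.idx t s < 2 * r + 3) ∧ thr θ (E.kpa t s) ≠ thr θ (E.kpa t (E.hi t s)))
            ≤ ∑ θ ∈ Finset.range E.M, c * (2 * r + 3) * (P + E.cnt (fun t s => E.low t s ∧
              thr θ (E.kap (t + 1) s) ≠ thr θ (E.kap t s))) := by
              apply Finset.sum_le_sum
              intro θ _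
              refine le_trans (E.cnt_mono ?_) (hK (thr θ) (2 * r + 3))
              intro t s _ _ h
              exact ⟨h.1.1, h.1.2.1, h.2, h.1.2.2⟩
          _ = c * (2 * r + 3) * (E.M * P + ∑ θ ∈ Finset.range E.M, E.cnt (fun t s => E.low t s ∧
              thr θ (E.kap (t + 1) s) ≠ thr θ (E.kap t s))) := by
              rw [← Finset.mul_sum, Finset.sum_add_distrib, Finset.sum_const, Finset.card_range,
                smul_eq_mul]
          _ ≤ c * (2 * r + 3) * (E.M * P + (E.wsum (fun t s => E.low t s ∧ E.sim t s (E.hi t s)) E.dr +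
              E.M * E.cnt E.cross)) := by
              gcongr
              rw [← E.wsum_dst E.low (fun t s => E.kap (t + 1) s) (fun t s => E.kap t s) E.M]
              · exact E.var_sum
              · intro t s ht hs _
                exact ⟨E.kap_lt (by omega), E.kap_lt (by omega)⟩
      · intro t s ht hs _
        exact ⟨E.kpa_lt (by omega), E.kpa_lt (by omega)⟩
    · -- G
      have h0 := E.wsum_pot E.kpa E.gd (fun t s => E.res t s ∨ (E.cross t s ∨ E.yy t s))
        (fun _ _ => 1) (fun t a => dst (E.kpa t a) (E.kpa t (E.hi t a)) +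
          2 * E.dr (E.org t (E.hi t a) - 1) (E.hi t a)) E.M (fun t s ht _ => (E.kpa_lt ht).le)
        (fun t s ht _ h => E.gd_step ht h) ?_
      · rw [← cnt_eq_wsum] at h0
        have h1 := E.cnt_or E.res (fun t s => E.cross t s ∨ E.yy t s)
        have h2 := E.cnt_or E.cross E.yy
        have h3 : E.wsum E.gd (fun t a => dst (E.kpa t a) (E.kpa t (E.hi t a)) +
            2 * E.dr (E.org t (E.hi t a) - 1) (E.hi t a)) ≤
            E.wsum (fun t a => E.low t a ∧ E.sim t a (E.hi t a) ∧ E.idx t a < 2 * r + 3)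
              (fun t a => dst (E.kpa t a) (E.kpa t (E.hi t a))) +
            2 * ((2 * r + 3) * E.wsum (fun t s => E.low t s ∧ E.sim t s (E.hi t s)) E.dr) +
            3 * E.M * E.NN (2 * r + 3) := E.gd_wsum (2 * r + 3)
        calc E.cnt E.gd ≤ _ := h0
          _ ≤ E.M * (E.S.card + (E.cnt E.res + (E.cnt E.cross + E.cnt E.yy))) +
            (E.wsum (fun t a => E.low t a ∧ E.sim t a (E.hi t a) ∧ E.idx t a < 2 * r + 3)
              (fun t a => dst (E.kpa t a) (E.kpa t (E.hi t a))) +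
            2 * ((2 * r + 3) * E.wsum (fun t s => E.low t s ∧ E.sim t s (E.hi t s)) E.dr) +
            3 * E.M * E.NN (2 * r + 3)) := by
              apply add_le_add _ h3
              gcongr
              omega
          _ = _ := by ring
      · intro t s ht hs hd hb
        have hr : ¬ E.res t s := fun h => hb (Or.inl h)
        have hx : ¬ E.low t s := by
          intro hl
          by_cases hsim : E.sim t s (E.hi t s)
          · by_cases hcr : E.cross (E.org t (E.hi t s) - 1) (E.hi t s)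
            · exact hb (Or.inr (Or.inr ⟨hl, hsim, hcr⟩))
            · exact hd ⟨hl, hsim, hcr⟩
          · exact hb (Or.inr (Or.inl ⟨hl, hsim⟩))
        rw [E.kpa_step hr hx]
    · -- N
      refine le_trans (E.cnt_mono (q := fun t s => E.gd t s ∨ (E.cross t s ∨ E.yy t s)) ?_)
        (le_trans (E.cnt_or _ _) (Nat.add_le_add_left (E.cnt_or _ _) _))
      intro t s _ _ hl
      by_cases hsim : E.sim t s (E.hi t s)
      · by_cases hcr : E.cross (E.org t (E.hi t s) - 1) (E.hi t s)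
        · exact Or.inr (Or.inr ⟨hl, hsim, hcr⟩)
        · exact Or.inl ⟨hl, hsim, hcr⟩
      · exact Or.inr (Or.inl ⟨hl, hsim⟩)
    · -- k
      have h1 : 2 * r + 3 ≤ 2 ^ (r + 2) := by
        have := Nat.lt_two_pow_self (n := r)
        have : 2 ^ (r + 2) = 4 * 2 ^ r := by ring
        omega
      calc 52 * c * E.M * (2 * r + 3) ≤ 2 ^ r * 2 ^ (r + 2) := by gcongr
        _ = 2 ^ (2 * r + 2) := by rw [← pow_add]; congr 1; ring
  have h5 : 2 * r + 3 ≤ (2 * Nat.log 2 (52 * c) + 7) * (Nat.log 2 E.M + 1) := by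
    have h6 : Nat.log 2 (52 * c * E.M) ≤ Nat.log 2 (52 * c) + Nat.log 2 E.M + 1 := by
      have h7 : 52 * c * E.M < 2 ^ (Nat.log 2 (52 * c) + Nat.log 2 E.M + 1 + 1) := by
        have e1 : 52 * c < 2 ^ (Nat.log 2 (52 * c) + 1) := Nat.lt_pow_succ_log_self (by norm_num) _
        have e2 : E.M < 2 ^ (Nat.log 2 E.M + 1) := Nat.lt_pow_succ_log_self (by norm_num) _
        calc 52 * c * E.M < 2 ^ (Nat.log 2 (52 * c) + 1) * 2 ^ (Nat.log 2 E.M + 1) :=
            Nat.mul_lt_mul'' e1 e2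
          _ = _ := by rw [← pow_add]; congr 1; ring
      have := Nat.log_lt_of_lt_pow (by positivity) h7
      omega
    rw [ha]
    set x := Nat.log 2 (52 * c)
    set y := Nat.log 2 E.M
    have : (2 * x + 7) * (y + 1) = 2 * x * y + 2 * x + 7 * y + 7 := by ring
    rw [this]
    have : 0 ≤ 2 * x * y := Nat.zero_le _
    omega
  calc E.cnt E.low ≤ 78 * (c ^ 2 * E.M * (2 * r + 3) ^ 2 * P) := key
    _ ≤ 78 * (c ^ 2 * E.M * ((2 * Nat.log 2 (52 * c) + 7) * (Nat.log 2 E.M + 1)) ^ 2 * P) := by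
        gcongr
    _ = 78 * c ^ 2 * (2 * Nat.log 2 (52 * c) + 7) ^ 2 * E.M * (Nat.log 2 E.M + 1) ^ 2 * P := by ring

end Ev
end Ply
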