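import Pool.Agent.Ply.Ev

/-! Ply/EvLab.lean (helper41): lives, epochs, labels, levels -/

namespace Ply
namespace Ev

open Classical

variable (E : Ev)

theorem bth_succ (t s : ℕ) : E.bth (t + 1) s = if E.res t s then t + 1 else E.bth t s := rfl

theorem org_succ (t s : ℕ) : E.org (t + 1) s = if E.res t s ∨ E.low t s then t + 1 else E.org t s := rfl

theorem bth_le (t s : ℕ) : E.bth t s ≤ t := by
  induction t with
  | zero => simp [bth]
  | succ t ih =>
    rw [bth_succ]
    split_ifs
    · exact le_rfl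
    · omega

theorem org_le (t s : ℕ) : E.org t s ≤ t := by
  induction t with
  | zero => simp [org]
  | succ t ih =>
    rw [org_succ]
    split_ifs
    · exact le_rfl
    · omega

/-- no reset since the birth -/
theorem not_res_since (t s : ℕ) : ∀ w, E.bth t s ≤ w → w < t → ¬ E.res w s := by
  induction t with
  | zero => intro w _ h; omega
  | succ t ih =>
    intro w h1 h2
    rw [bth_succ] at h1
    split_ifs at h1 with h
    · omega
    · rcases Nat.lt_succ_iff_lt_or_eq.mp h2 with h3 | h3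
      · exact ih w h1 h3
      · subst h3; exact h

theorem bth_eq_of_not_res {u v s : ℕ} (huv : u ≤ v) (h : ∀ w, u ≤ w → w < v → ¬ E.res w s) :
    E.bth u s = E.bth v s := by
  induction v, huv using Nat.le_induction with
  | base => rfl
  | succ v hv ih =>
    rw [bth_succ, if_neg (h v hv (Nat.lt_succ_self v))]
    exact ih (fun w h1 h2 => h w h1 (by omega))

/-- the same life: no reset in between -/
theorem not_res_of_bth {u v s : ℕ} (_huv : u ≤ v) (h : E.bth u s = E.bth v s) {w : ℕ} (h1 : u ≤ w) (h2 : w < v) :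
    ¬ E.res w s := by
  apply E.not_res_since v s w _ h2
  rw [← h]
  exact le_trans (E.bth_le u s) h1

/-- nothing since the start of the epoch -/
theorem not_ev_since (t s : ℕ) : ∀ w, E.org t s ≤ w → w < t → ¬ E.res w s ∧ ¬ E.low w s := by
  induction t with
  | zero => intro w _ h; omega
  | succ t ih =>
    intro w h1 h2
    rw [org_succ] at h1
    split_ifs at h1 with h
    · omega
    · rcases Nat.lt_succ_iff_lt_or_eq.mp h2 with h3 | h3
      · exact ih w h1 h3
      · subst h3
        exact ⟨fun hh => h (Or.inl hh), fun hh => h (Or.inr hh)⟩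

theorem org_eq_of_not_ev {u v s : ℕ} (huv : u ≤ v) (h : ∀ w, u ≤ w → w < v → ¬ E.low w s ∧ ¬ E.res w s) :
    E.org v s = E.org u s := by
  induction v, huv using Nat.le_induction with
  | base => rfl
  | succ v hv ih =>
    have h1 := h v hv (Nat.lt_succ_self v)
    rw [org_succ, if_neg (by tauto)]
    exact ih (fun w h1 h2 => h w h1 (by omega))

/-- the event which started the epoch -/
theorem org_ev (t s : ℕ) (h : 0 < E.org t s) : E.res (E.org t s - 1) s ∨ E.low (E.org t s - 1) s := by
  induction t with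
  | zero => simp [org] at h
  | succ t ih =>
    rw [org_succ] at h ⊢
    split_ifs at h ⊢ with h1
    · simpa using h1
    · exact ih h

theorem bth_le_org (t s : ℕ) : E.bth t s ≤ E.org t s := by
  induction t with
  | zero => simp [org, bth]
  | succ t ih =>
    rw [org_succ, bth_succ]
    have := E.bth_le t s
    split_ifs with h1 h2 h3
    · exact le_rfl
    · tauto
    · omega
    · exact ih

/-- if the third component of the label is not 2, the label comes from a match -/
theorem lab_spec' {t a q β e : ℕ} (h : E.lab t a = (q, β, e)) (he : e ≠ 2) :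
    ∃ l, l < t ∧ E.low l a ∧ E.hi l a = q ∧ E.bth l q = β ∧ E.sg (l + 1) a = e ∧ E.org t a = l + 1 ∧
      (∀ u, l < u → u < t → ¬ E.low u a ∧ ¬ E.res u a) ∧
      E.tim t a = (Finset.Ico (l + 1) t).filter (fun u => E.tch u a) ∧ E.isL t a := by
  unfold lab at h
  split_ifs at h with h1
  · simp only [Prod.mk.injEq] at h
    obtain ⟨h2, h3, h4⟩ := h
    obtain ⟨h5, h6⟩ := h1
    have h7 := E.org_le t a
    refine ⟨E.org t a - 1, by omega, h6, h2, ?_, ?_, by omega, ?_, ?_, ⟨h5, h6⟩⟩
    · rw [← h2]; exact h3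
    · rw [show E.org t a - 1 + 1 = E.org t a by omega]; exact h4
    · intro u hu1 hu2
      have := E.not_ev_since t a u (by omega) hu2
      exact ⟨this.2, this.1⟩
    · rw [show E.org t a - 1 + 1 = E.org t a by omega]; rfl
  · simp only [Prod.mk.injEq] at h
    exact absurd h.2.2.symm he

theorem lab_spec {t a q β e : ℕ} (_ht : t ≤ E.m) (h : E.lab t a = (q, β, e)) (he : e ≠ 2) :
    ∃ l, l < t ∧ E.low l a ∧ E.hi l a = q ∧ E.bth l q = β ∧ E.sg (l + 1) a = e ∧ E.org t a = l + 1 ∧
      (∀ u, l < u → u < t → ¬ E.low u a ∧ ¬ E.res u a) ∧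
      E.tim t a = (Finset.Ico (l + 1) t).filter (fun u => E.tch u a) := by
  obtain ⟨l, h1, h2, h3, h4, h5, h6, h7, h8, _⟩ := E.lab_spec' h he
  exact ⟨l, h1, h2, h3, h4, h5, h6, h7, h8⟩

/-- the epoch after a match -/
theorem org_of_low {l t a : ℕ} (hlt : l < t) (h : E.low l a)
    (hno : ∀ u, l < u → u < t → ¬ E.low u a ∧ ¬ E.res u a) : E.org t a = l + 1 := by
  rw [E.org_eq_of_not_ev (u := l + 1) (v := t) (by omega) (fun w h1 h2 => hno w (by omega) h2), org_succ,
    if_pos (Or.inr h)]

theorem isL_of_low {l t a : ℕ} (hlt : l < t) (h : E.low l a)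
    (hno : ∀ u, l < u → u < t → ¬ E.low u a ∧ ¬ E.res u a) : E.isL t a := by
  unfold isL
  rw [E.org_of_low hlt h hno]
  exact ⟨by omega, by simpa using h⟩

/-- converse: the label after a match -/
theorem lab_of_low {l t a : ℕ} (hlt : l < t) (_ht : t ≤ E.m) (h : E.low l a)
    (hno : ∀ u, l < u → u < t → ¬ E.low u a ∧ ¬ E.res u a) :
    E.lab t a = (E.hi l a, E.bth l (E.hi l a), E.sg (l + 1) a) ∧ E.org t a = l + 1 := by
  have h1 := E.org_of_low hlt h hno
  refine ⟨?_, h1⟩
  unfold lab
  rw [if_pos (E.isL_of_low hlt h hno), h1]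
  simp

/-- label of a birth epoch -/
theorem lab_birth {t a : ℕ} (h : (E.lab t a).2.2 = 2) :
    E.lab t a = (a, E.org t a, 2) := by
  unfold lab at h ⊢
  split_ifs at h ⊢ with h1
  · simp only at h
    have := E.sg_le (E.org t a) a
    omega
  · rfl

/-- `a ~ b` with `a ≠ b`: both epochs started by matches -/
theorem isL_of_sim {t a b : ℕ} (hab : a ≠ b) (h : E.sim t a b) : E.isL t a ∧ E.isL t b := by
  have h1 := h.1
  by_contra hcon
  by_cases ha : E.isL t a
  · have hb : ¬ E.isL t b := fun hb => hcon ⟨ha, hb⟩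
    unfold lab at h1
    rw [if_pos ha, if_neg hb] at h1
    simp only [Prod.mk.injEq] at h1
    have := E.sg_le (E.org t a) a
    omega
  · by_cases hb : E.isL t b
    · unfold lab at h1
      rw [if_neg ha, if_pos hb] at h1
      simp only [Prod.mk.injEq] at h1
      have := E.sg_le (E.org t b) b
      omega
    · unfold lab at h1
      rw [if_neg ha, if_neg hb] at h1
      simp only [Prod.mk.injEq] at h1
      exact hab h1.1

theorem om_eq_of_not_res {u v s : ℕ} (huv : u ≤ v) (hv : v ≤ E.m) (hs : s ∈ E.S)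
    (h : ∀ w, u ≤ w → w < v → ¬ E.res w s) : E.om v s = E.om u s := by
  induction v, huv using Nat.le_induction with
  | base => rfl
  | succ v hv' ih =>
    rw [E.om_eq v s (by omega) hs (h v hv' (Nat.lt_succ_self v))]
    exact ih (by omega) (fun w h1 h2 => h w h1 (by omega))

/-- same life: same height -/
theorem om_eq_of_bth {u v s : ℕ} (hu : u ≤ E.m) (hv : v ≤ E.m) (hs : s ∈ E.S)
    (h : E.bth u s = E.bth v s) : E.om u s = E.om v s := by
  rcases le_total u v with huv | huv
  · exact (E.om_eq_of_not_res huv hv hs (fun w h1 h2 => E.not_res_of_bth huv h h1 h2)).symm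
  · exact E.om_eq_of_not_res huv hu hs (fun w h1 h2 => E.not_res_of_bth huv h.symm h1 h2)

/-- in the relation `~` the ceilings agree -/
theorem ceil_eq_of_sim {t a b : ℕ} (ht : t ≤ E.m) (hab : a ≠ b) (h : E.sim t a b) :
    E.ceil t a = E.ceil t b := by
  obtain ⟨ha, hb⟩ := E.isL_of_sim hab h
  have h1 := h.1
  unfold lab at h1
  rw [if_pos ha, if_pos hb] at h1
  simp only [Prod.mk.injEq] at h1
  obtain ⟨h2, h3, h4⟩ := h1
  unfold ceil
  rw [if_pos ha, if_pos hb]
  have h5 := E.org_le t a
  have h6 := E.org_le t b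
  have h7 := ha.1
  have h8 := hb.1
  rw [← h2] at h3 ⊢
  exact E.om_eq_of_bth (by omega) (by omega) (E.hi_S _ _ (by omega) ha.2) h3

/-- `om < ceil` -/
theorem om_lt_ceil {t s : ℕ} (ht : t ≤ E.m) (hs : s ∈ E.S) : E.om t s < E.ceil t s := by
  unfold ceil
  have h5 := E.org_le t s
  split_ifs with h
  · have h7 := h.1
    have h8 := E.low_om _ _ (by omega) h.2
    have h9 : E.om t s = E.om (E.org t s - 1) s := by
      apply E.om_eq_of_not_res (by omega) ht hs
      intro w h1 h2
      rcases Nat.eq_or_lt_of_le h1 with h3 | h3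
      · rw [← h3]; exact E.low_res _ _ (by omega) h.2
      · exact (E.not_ev_since t s w (by omega) h2).1
    rw [h9]; exact h8
  · have := E.om_le t s ht hs
    omega

theorem ceil_le {t s : ℕ} (ht : t ≤ E.m) : E.ceil t s ≤ E.H + 1 := by
  unfold ceil
  have h5 := E.org_le t s
  split_ifs with h
  · have h7 := h.1
    have := E.om_le (E.org t s - 1) (E.hi (E.org t s - 1) s) (by omega) (E.hi_S _ _ (by omega) h.2)
    omega
  · exact le_rfl

/-- number of levels -/
def M : ℕ := Nat.log 2 (E.H + 1) + 1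

theorem kap_lt {t s : ℕ} (ht : t ≤ E.m) : E.kap t s < E.M := by
  unfold kap M
  have h1 := E.ceil_le (s := s) ht
  have h2 : Nat.log 2 (E.ceil t s - E.om t s) ≤ Nat.log 2 (E.H + 1) := Nat.log_mono_right (by omega)
  omega

theorem kpa_lt {t s : ℕ} (ht : t ≤ E.m) : E.kpa t s < E.M := by
  unfold kpa
  have h5 := E.org_le t s
  split_ifs with h
  · exact E.kap_lt (by omega)
  · unfold M; omega

/-! ### one step -/

theorem org_step {t s : ℕ} (hr : ¬ E.res t s) (hl : ¬ E.low t s) : E.org (t + 1) s = E.org t s := by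
  rw [org_succ, if_neg (by tauto)]

theorem isL_step {t s : ℕ} (hr : ¬ E.res t s) (hl : ¬ E.low t s) : E.isL (t + 1) s ↔ E.isL t s := by
  unfold isL
  rw [E.org_step hr hl]

theorem ceil_step {t s : ℕ} (hr : ¬ E.res t s) (hl : ¬ E.low t s) : E.ceil (t + 1) s = E.ceil t s := by
  unfold ceil
  rw [E.org_step hr hl]
  by_cases h : E.isL t s
  · rw [if_pos h, if_pos ((E.isL_step hr hl).2 h)]
  · rw [if_neg h, if_neg (fun h' => h ((E.isL_step hr hl).1 h'))]

theorem kap_step {t s : ℕ} (ht : t < E.m) (hs : s ∈ E.S) (hr : ¬ E.res t s) (hl : ¬ E.low t s) :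
    E.kap (t + 1) s = E.kap t s := by
  unfold kap
  rw [E.ceil_step hr hl, E.om_eq t s ht hs hr]

theorem kpa_step {t s : ℕ} (hr : ¬ E.res t s) (hl : ¬ E.low t s) : E.kpa (t + 1) s = E.kpa t s := by
  unfold kpa
  rw [E.org_step hr hl]
  by_cases h : E.isL t s
  · rw [if_pos h, if_pos ((E.isL_step hr hl).2 h)]
  · rw [if_neg h, if_neg (fun h' => h ((E.isL_step hr hl).1 h'))]

theorem lab_step {t s : ℕ} (hr : ¬ E.res t s) (hl : ¬ E.low t s) : E.lab (t + 1) s = E.lab t s := by
  unfold lab
  rw [E.org_step hr hl]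
  by_cases h : E.isL t s
  · rw [if_pos h, if_pos ((E.isL_step hr hl).2 h)]
  · rw [if_neg h, if_neg (fun h' => h ((E.isL_step hr hl).1 h'))]

theorem tim_step {t s : ℕ} (hr : ¬ E.res t s) (hl : ¬ E.low t s) :
    E.tim (t + 1) s = if E.tch t s then insert t (E.tim t s) else E.tim t s := by
  have h5 := E.org_le t s
  have h6 : Finset.Ico (E.org t s) (t + 1) = insert t (Finset.Ico (E.org t s) t) := by
    ext x
    simp only [Finset.mem_Ico, Finset.mem_insert]
    omega
  unfold tim
  rw [E.org_step hr hl, h6, Finset.filter_insert]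

theorem not_mem_tim (t s : ℕ) : t ∉ E.tim t s := by
  unfold tim
  simp

theorem idx_step {t s : ℕ} (hr : ¬ E.res t s) (hl : ¬ E.low t s) :
    E.idx (t + 1) s = if E.tch t s then E.idx t s + 1 else E.idx t s := by
  unfold idx
  rw [E.tim_step hr hl]
  split_ifs with h
  · rw [Finset.card_insert_of_notMem (E.not_mem_tim t s)]
  · rfl

theorem idx_start {t s : ℕ} (h : E.res t s ∨ E.low t s) : E.idx (t + 1) s = 0 := by
  unfold idx tim
  rw [org_succ, if_pos h]
  simp

theorem isL_start {t s : ℕ} (h : E.low t s) : E.isL (t + 1) s := by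
  apply E.isL_of_low (Nat.lt_succ_self t) h
  intro u h1 h2; omega

theorem org_start {t s : ℕ} (h : E.low t s) : E.org (t + 1) s = t + 1 := by
  rw [org_succ, if_pos (Or.inr h)]

theorem ceil_start {t s : ℕ} (h : E.low t s) : E.ceil (t + 1) s = E.om t (E.hi t s) := by
  unfold ceil
  rw [if_pos (E.isL_start h), E.org_start h]
  simp

theorem kpa_start {t s : ℕ} (h : E.low t s) : E.kpa (t + 1) s = E.kap t (E.hi t s) := by
  unfold kpa
  rw [if_pos (E.isL_start h), E.org_start h]
  simp

/-- LINK LEMMA -/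
theorem link {t a : ℕ} (ht : t < E.m) (h : E.low t a) (hsim : E.sim t a (E.hi t a)) :
    E.kap (t + 1) a ≤ E.kap t a ∧ E.kap t (E.hi t a) ≤ E.kap t a ∧
      (E.kap (t + 1) a < E.kap t a ∨ E.kap t (E.hi t a) < E.kap t a) := by
  set b := E.hi t a with hb
  have hab : a ≠ b := by
    intro hcon
    exact E.hi_low t a ht h (by rw [← hb, ← hcon]; exact h)
  have haS := E.low_S t a ht h
  have hbS := E.hi_S t a ht h
  have hc := E.ceil_eq_of_sim (by omega) hab hsim
  have h1 := E.low_om t a ht h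
  have h2 := E.om_lt_ceil (t := t) (s := b) (by omega) hbS
  have h3 : E.om (t + 1) a = E.om t a := E.om_eq t a ht haS (E.low_res t a ht h)
  have h4 := E.ceil_start h
  rw [← hb] at h1 h4
  unfold kap
  rw [h4, h3, hc]
  set c := E.ceil t b
  set x := E.om t a
  set y := E.om t b
  have e1 : Nat.log 2 (y - x) ≤ Nat.log 2 (c - x) := Nat.log_mono_right (by omega)
  have e2 : Nat.log 2 (c - y) ≤ Nat.log 2 (c - x) := Nat.log_mono_right (by omega)
  refine ⟨e1, e2, ?_⟩
  by_contra hcon
  push Not at hcon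
  obtain ⟨h5, h6⟩ := hcon
  have h7 : 2 ^ Nat.log 2 (c - x) ≤ y - x := by
    calc 2 ^ Nat.log 2 (c - x) ≤ 2 ^ Nat.log 2 (y - x) := Nat.pow_le_pow_right (by norm_num) h5
      _ ≤ y - x := Nat.pow_log_le_self 2 (by omega)
  have h8 : 2 ^ Nat.log 2 (c - x) ≤ c - y := by
    calc 2 ^ Nat.log 2 (c - x) ≤ 2 ^ Nat.log 2 (c - y) := Nat.pow_le_pow_right (by norm_num) h6
      _ ≤ c - y := Nat.pow_log_le_self 2 (by omega)
  have h9 : c - x < 2 ^ (Nat.log 2 (c - x) + 1) := Nat.lt_pow_succ_log_self (by norm_num) _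
  rw [pow_succ] at h9
  omega

end Ev
end Ply
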