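import Pool.Agent.Ply.EvCnt

/-! Ply/EvTail.lean (helper76): touches by index, the exponential tail, weighted sums -/

set_option autoImplicit false

namespace Ply
namespace Ev

open Classical

variable (E : Ev)

/-- the number of touches of index at least `J` -/
noncomputable def TT (J : ℕ) : ℕ := E.cnt (fun t s => E.tch t s ∧ J ≤ E.idx t s)

/-- the number of LOW events of index at least `J` -/
noncomputable def NN (J : ℕ) : ℕ := E.cnt (fun t s => E.low t s ∧ J ≤ E.idx t s)

theorem NN_le_TT (J : ℕ) : E.NN J ≤ E.TT J :=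
  E.cnt_mono (fun t s ht _ h => ⟨E.low_tch t s ht h.1, h.2⟩)

theorem NN_le (J : ℕ) : E.NN J ≤ E.cnt E.low :=
  E.cnt_mono (fun _ _ _ _ h => h.1)

theorem TT_step (J : ℕ) : E.TT (J + 1) + E.NN J ≤ E.TT J := by
  unfold TT NN
  rw [cnt_eq, cnt_eq, cnt_eq, ← Finset.sum_add_distrib]
  apply Finset.sum_le_sum
  intro s hs
  have key : ∀ t, t ≤ E.m →
      ((Finset.range t).filter (fun t => E.tch t s ∧ J + 1 ≤ E.idx t s)).card +
      ((Finset.range t).filter (fun t => E.low t s ∧ J ≤ E.idx t s)).card +
      (if J + 1 ≤ E.idx t s then 1 else 0) ≤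
      ((Finset.range t).filter (fun t => E.tch t s ∧ J ≤ E.idx t s)).card := by
    intro t
    induction t with
    | zero =>
      intro _
      have : ¬ J + 1 ≤ E.idx 0 s := by
        have : E.idx 0 s = 0 := by simp [idx, tim]
        omega
      rw [if_neg this]
      simp
    | succ t ih =>
      intro ht
      have ih' := ih (by omega)
      rw [card_range_succ, card_range_succ, card_range_succ]
      have hstep : (if E.tch t s ∧ J + 1 ≤ E.idx t s then 1 else 0) +
          (if E.low t s ∧ J ≤ E.idx t s then 1 else 0) + (if J + 1 ≤ E.idx (t + 1) s then 1 else 0) ≤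
          (if J + 1 ≤ E.idx t s then 1 else 0) + (if E.tch t s ∧ J ≤ E.idx t s then 1 else 0) := by
        by_cases hl : E.low t s
        · have h1 := E.low_tch t s (by omega) hl
          rw [E.idx_start (Or.inr hl)]
          simp only [h1, hl, true_and]
          split_ifs <;> omega
        · by_cases hr : E.res t s
          · rw [E.idx_start (Or.inl hr)]
            simp only [hl, false_and, if_false]
            by_cases h1 : E.tch t s
            · simp only [h1, true_and]
              split_ifs <;> omega
            · simp only [h1, false_and, if_false]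
              split_ifs <;> omega
          · rw [E.idx_step hr hl]
            simp only [hl, false_and, if_false]
            by_cases h1 : E.tch t s
            · simp only [h1, true_and, if_true]
              split_ifs <;> omega
            · simp only [h1, false_and, if_false]
              split_ifs <;> omega
      omega
  have h5 := le_trans (Nat.le_add_right _ _) (key E.m le_rfl)
  convert h5

/-- every touch has index at least 1, or it is the first one after a birth, a reset or a match -/
theorem TT_zero : E.cnt E.tch ≤ E.S.card + E.cnt E.res + E.cnt E.low + E.TT 1 := by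
  unfold TT
  rw [cnt_eq, cnt_eq, cnt_eq, cnt_eq, Finset.card_eq_sum_ones, ← Finset.sum_add_distrib,
    ← Finset.sum_add_distrib, ← Finset.sum_add_distrib]
  apply Finset.sum_le_sum
  intro s hs
  have key : ∀ t, t ≤ E.m →
      ((Finset.range t).filter (fun t => E.tch t s)).card ≤
      (if 1 ≤ E.idx t s then 1 else 0) + ((Finset.range t).filter (fun t => E.res t s)).card +
      ((Finset.range t).filter (fun t => E.low t s)).card +
      ((Finset.range t).filter (fun t => E.tch t s ∧ 1 ≤ E.idx t s)).card := by
    intro t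
    induction t with
    | zero => intro _; simp
    | succ t ih =>
      intro ht
      have ih' := ih (by omega)
      rw [card_range_succ, card_range_succ, card_range_succ, card_range_succ]
      have hstep : (if 1 ≤ E.idx t s then 1 else 0) + (if E.tch t s then 1 else 0) ≤
          (if 1 ≤ E.idx (t + 1) s then 1 else 0) + (if E.res t s then 1 else 0) +
          (if E.low t s then 1 else 0) + (if E.tch t s ∧ 1 ≤ E.idx t s then 1 else 0) := by
        by_cases hlr : E.res t s ∨ E.low t s
        · rw [E.idx_start hlr]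
          have h2 : 1 ≤ (if E.res t s then 1 else 0) + (if E.low t s then 1 else 0) := by
            rcases hlr with h | h
            · rw [if_pos h]; omega
            · rw [if_pos h]; omega
          by_cases h1 : E.tch t s
          · simp only [h1, true_and, if_true]
            split_ifs at h2 ⊢ <;> omega
          · simp only [h1, false_and, if_false]
            split_ifs at h2 ⊢ <;> omega
        · have hr : ¬ E.res t s := fun h => hlr (Or.inl h)
          have hl : ¬ E.low t s := fun h => hlr (Or.inr h)
          rw [E.idx_step hr hl]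
          by_cases h1 : E.tch t s
          · simp only [h1, true_and, if_true]
            split_ifs <;> omega
          · simp only [h1, false_and, if_false]
            split_ifs <;> omega
      omega
  have h1 := key E.m le_rfl
  have h2 : (if 1 ≤ E.idx E.m s then 1 else 0) ≤ 1 := by split_ifs <;> omega
  have h3 : ((Finset.range E.m).filter (fun t => E.tch t s)).card ≤
      1 + ((Finset.range E.m).filter (fun t => E.res t s)).card +
      ((Finset.range E.m).filter (fun t => E.low t s)).card +
      ((Finset.range E.m).filter (fun t => E.tch t s ∧ 1 ≤ E.idx t s)).card := by omega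
  refine le_trans (le_of_eq ?_) (le_trans h3 (le_of_eq ?_))
  · congr
  · congr

/-- THE TAIL -/
theorem tail (c P : ℕ) (hH : ∀ J, 1 ≤ J → E.TT J ≤ 2 * E.NN J + c * J * P) (k : ℕ) :
    2 ^ k * E.TT (k + 1) ≤ E.TT 1 + 2 ^ k * (c * (k + 1) * P) := by
  induction k with
  | zero => simp
  | succ k ih =>
    have h1 := E.TT_step (k + 1)
    have h2 := hH (k + 1) (by omega)
    have h3 : 2 * E.TT (k + 2) ≤ E.TT (k + 1) + c * (k + 1) * P := by
      have : k + 1 + 1 = k + 2 := rfl
      rw [this] at h1
      omega
    have h4 : c * (k + 1) * P ≤ c * (k + 1 + 1) * P := by gcongr; omega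
    calc 2 ^ (k + 1) * E.TT (k + 1 + 1) = 2 ^ k * (2 * E.TT (k + 2)) := by ring
      _ ≤ 2 ^ k * (E.TT (k + 1) + c * (k + 1) * P) := by gcongr
      _ = 2 ^ k * E.TT (k + 1) + 2 ^ k * (c * (k + 1) * P) := by ring
      _ ≤ E.TT 1 + 2 ^ k * (c * (k + 1) * P) + 2 ^ k * (c * (k + 1) * P) := by gcongr
      _ = E.TT 1 + 2 ^ (k + 1) * (c * (k + 1) * P) := by ring
      _ ≤ E.TT 1 + 2 ^ (k + 1) * (c * (k + 1 + 1) * P) := by gcongr

/-! ### weighted sums -/

/-- the sum of the weights `w` over the pairs (time, player) with a property -/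
noncomputable def wsum (p : ℕ → ℕ → Prop) (w : ℕ → ℕ → ℕ) : ℕ :=
  ∑ x ∈ (Finset.range E.m ×ˢ E.S).filter (fun x => p x.1 x.2), w x.1 x.2

theorem wsum_eq (p : ℕ → ℕ → Prop) (w : ℕ → ℕ → ℕ) :
    E.wsum p w = ∑ s ∈ E.S, ∑ t ∈ Finset.range E.m, if p t s then w t s else 0 := by
  unfold wsum
  rw [Finset.sum_filter, Finset.sum_product_right]

theorem cnt_eq_wsum (p : ℕ → ℕ → Prop) : E.cnt p = E.wsum p (fun _ _ => 1) := by
  unfold cnt wsum
  rw [Finset.card_eq_sum_ones]

theorem cnt_eq' (p : ℕ → ℕ → Prop) :
    E.cnt p = ∑ s ∈ E.S, ∑ t ∈ Finset.range E.m, if p t s then 1 else 0 := by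
  rw [cnt_eq_wsum, wsum_eq]

theorem wsum_mono {p q : ℕ → ℕ → Prop} {w v : ℕ → ℕ → ℕ}
    (h : ∀ t s, t < E.m → s ∈ E.S → p t s → q t s ∧ w t s ≤ v t s) : E.wsum p w ≤ E.wsum q v := by
  rw [wsum_eq, wsum_eq]
  apply Finset.sum_le_sum
  intro s hs
  apply Finset.sum_le_sum
  intro t ht
  by_cases hp : p t s
  · have := h t s (Finset.mem_range.1 ht) hs hp
    rw [if_pos hp, if_pos this.1]
    exact this.2
  · rw [if_neg hp]; exact Nat.zero_le _

theorem wsum_or (p q : ℕ → ℕ → Prop) (w : ℕ → ℕ → ℕ) :
    E.wsum (fun t s => p t s ∨ q t s) w ≤ E.wsum p w + E.wsum q w := by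
  rw [wsum_eq, wsum_eq, wsum_eq, ← Finset.sum_add_distrib]
  apply Finset.sum_le_sum
  intro s _
  rw [← Finset.sum_add_distrib]
  apply Finset.sum_le_sum
  intro t _
  by_cases hp : p t s
  · simp only [hp, true_or, if_true]
    exact Nat.le_add_right _ _
  · by_cases hq : q t s
    · simp [hp, hq]
    · simp [hp, hq]

theorem wsum_add (p : ℕ → ℕ → Prop) (w v : ℕ → ℕ → ℕ) :
    E.wsum p (fun t s => w t s + v t s) = E.wsum p w + E.wsum p v := by
  unfold wsum
  rw [Finset.sum_add_distrib]

theorem wsum_const (p : ℕ → ℕ → Prop) (K : ℕ) : E.wsum p (fun _ _ => K) = K * E.cnt p := by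
  unfold wsum cnt
  rw [Finset.sum_const, smul_eq_mul, mul_comm]

theorem wsum_mul (p : ℕ → ℕ → Prop) (w : ℕ → ℕ → ℕ) (K : ℕ) :
    E.wsum p (fun t s => K * w t s) = K * E.wsum p w := by
  unfold wsum
  rw [Finset.mul_sum]

/-- the weighted potential argument -/
theorem wsum_pot (f : ℕ → ℕ → ℕ) (G B : ℕ → ℕ → Prop) (u w : ℕ → ℕ → ℕ) (K : ℕ)
    (hf : ∀ t s, t ≤ E.m → s ∈ E.S → f t s ≤ K)
    (hG : ∀ t s, t < E.m → s ∈ E.S → G t s → f t s + u t s ≤ f (t + 1) s + w t s)
    (hB : ∀ t s, t < E.m → s ∈ E.S → ¬ G t s → ¬ B t s → f t s ≤ f (t + 1) s) :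
    E.wsum G u ≤ K * (E.S.card + E.cnt B) + E.wsum G w := by
  rw [wsum_eq, wsum_eq, cnt_eq', mul_add, Finset.mul_sum]
  have hc : K * E.S.card = ∑ _s ∈ E.S, K := by rw [Finset.sum_const, smul_eq_mul, mul_comm]
  rw [hc, ← Finset.sum_add_distrib, ← Finset.sum_add_distrib]
  apply Finset.sum_le_sum
  intro s hs
  have key : ∀ t, t ≤ E.m → (∑ t ∈ Finset.range t, if G t s then u t s else 0) ≤
      f t s + K * (∑ t ∈ Finset.range t, if B t s then 1 else 0) +
        ∑ t ∈ Finset.range t, if G t s then w t s else 0 := by
    intro t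
    induction t with
    | zero => intro _; simp
    | succ t ih =>
      intro ht
      have ih' := ih (by omega)
      rw [Finset.sum_range_succ, Finset.sum_range_succ, Finset.sum_range_succ, mul_add]
      have h1 := hf t s (by omega) hs
      by_cases hg : G t s
      · have := hG t s (by omega) hs hg
        rw [if_pos hg, if_pos hg]
        omega
      · rw [if_neg hg, if_neg hg]
        by_cases hb : B t s
        · rw [if_pos hb, mul_one]; omega
        · have := hB t s (by omega) hs hg hb
          omega
  have h2 := key E.m le_rfl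
  have h3 := hf E.m s le_rfl hs
  omega

end Ev
end Ply
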